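import Pool.Agent.H23.FC.Targets
import Pool.Agent.H42.FM.GML

/-!
MP_52e316_nt, board fmx_modules, row KGM: a lower bound for the factor of the completed
`L`-function of weight `2 m`.
-/

set_option autoImplicit false

open MeasureTheory Set Filter
open scoped Real Topology

namespace Pool.Agent.H42.FC

open Pool.Agent.H31.CN Pool.Agent.H89.FM Pool.Agent.H89.FC Pool.Agent.H23.FC
open Pool.Agent.H61.GLH Pool.Agent.H23.GLH Pool.Agent.H42.FM

/-- logarithm of the growth factor -/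
noncomputable def FF (t a : ℝ) : ℝ :=
  a * (Real.log (a ^ 2 + t ^ 2) / 2 - Real.log a) - t * Real.arctan (t / a)

/-- its derivative -/
noncomputable def FD (t a : ℝ) : ℝ := Real.log (a ^ 2 + t ^ 2) / 2 - Real.log a

theorem hasDerivAt_FF (t : ℝ) {a : ℝ} (ha : 0 < a) : HasDerivAt (FF t) (FD t a) a := by
  have h0 : 0 < a ^ 2 + t ^ 2 := by positivity
  have h1 : HasDerivAt (fun a : ℝ => a ^ 2 + t ^ 2) (2 * a) a := by
    have := (hasDerivAt_pow 2 a).add_const (t ^ 2)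
    simpa using this
  have h2 : HasDerivAt (fun a : ℝ => Real.log (a ^ 2 + t ^ 2)) (2 * a / (a ^ 2 + t ^ 2)) a :=
    h1.log h0.ne'
  have h3 := Real.hasDerivAt_log ha.ne'
  have h4 : HasDerivAt (fun a : ℝ => Real.log (a ^ 2 + t ^ 2) / 2 - Real.log a)
      (2 * a / (a ^ 2 + t ^ 2) / 2 - a⁻¹) a := (h2.div_const 2).sub h3
  have h5 := (hasDerivAt_id a).mul h4
  have h6 : HasDerivAt (fun a : ℝ => t / a) (-(t / a ^ 2)) a := by
    have := (hasDerivAt_inv ha.ne').const_mul t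
    have e : t * -(a ^ 2)⁻¹ = -(t / a ^ 2) := by ring
    rw [e] at this
    refine this.congr_of_eventuallyEq ?_
    exact Eventually.of_forall fun b => by
      show t / b = t * b⁻¹
      rw [div_eq_mul_inv]
  have h7 := h6.arctan
  have h8 := (h7.const_mul t)
  have h9 := h5.sub h8
  have e : 1 * (Real.log (a ^ 2 + t ^ 2) / 2 - Real.log a) +
      id a * (2 * a / (a ^ 2 + t ^ 2) / 2 - a⁻¹) -
      t * (1 / (1 + (t / a) ^ 2) * -(t / a ^ 2)) = FD t a := by
    rw [FD, id]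
    have h10 : 1 + (t / a) ^ 2 = (a ^ 2 + t ^ 2) / a ^ 2 := by
      field_simp
    rw [h10]
    field_simp
    ring
  rw [← e]
  exact h9

theorem FD_anti (t : ℝ) {a b : ℝ} (ha : 0 < a) (hab : a ≤ b) : FD t b ≤ FD t a := by
  have hb : 0 < b := ha.trans_le hab
  have e : ∀ c : ℝ, 0 < c → FD t c = Real.log (1 + (t / c) ^ 2) / 2 := by
    intro c hc
    have h1 : c ^ 2 + t ^ 2 = c ^ 2 * (1 + (t / c) ^ 2) := by field_simp
    rw [FD, h1, Real.log_mul (by positivity) (by positivity), Real.log_pow]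
    push_cast
    ring
  rw [e a ha, e b hb]
  have h2 : (t / b) ^ 2 ≤ (t / a) ^ 2 := by
    rw [div_pow, div_pow]
    exact div_le_div_of_nonneg_left (sq_nonneg _) (by positivity) (pow_le_pow_left₀ ha.le hab 2)
  have h3 := Real.log_le_log (show (0 : ℝ) < 1 + (t / b) ^ 2 by positivity)
    (show 1 + (t / b) ^ 2 ≤ 1 + (t / a) ^ 2 by linarith)
  linarith

theorem FF_step (t : ℝ) {a : ℝ} (ha : 0 < a) : FF t (a + 1) - FF t a ≤ FD t a := by
  have h := Convex.image_sub_le_mul_sub_of_deriv_le (D := Icc a (a + 1)) (convex_Icc _ _)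
    (f := FF t) (C := FD t a) (fun b hb => (hasDerivAt_FF t (ha.trans_le hb.1)).continuousAt.continuousWithinAt)
    (fun b hb => by
      rw [interior_Icc] at hb
      exact (hasDerivAt_FF t (ha.trans hb.1)).differentiableAt.differentiableWithinAt)
    (fun b hb => by
      rw [interior_Icc] at hb
      rw [(hasDerivAt_FF t (ha.trans hb.1)).deriv]
      exact FD_anti t ha hb.1.le) a (left_mem_Icc.2 (by linarith)) (a + 1)
    (right_mem_Icc.2 (by linarith)) (by linarith)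
  have e : FD t a * (a + 1 - a) = FD t a := by ring
  rw [e] at h
  exact h

/-- `cG` times `(2 π) ^ m` -/
noncomputable def gg (m : ℕ) (t : ℝ) : ℝ := (m.factorial : ℝ) * Real.exp (FF t (m + 1))

theorem gg_eq (m : ℕ) (t : ℝ) : cG m t = gg m t / (2 * π) ^ m := by
  have hb : (0 : ℝ) < (m : ℝ) + 1 := by positivity
  have h0 : (0 : ℝ) < ((m : ℝ) + 1) ^ 2 + t ^ 2 := by positivity
  have h1 : (Real.sqrt (((m : ℝ) + 1) ^ 2 + t ^ 2) / (m + 1)) ^ (m + 1) =
      Real.exp (((m : ℝ) + 1) * (Real.log (((m : ℝ) + 1) ^ 2 + t ^ 2) / 2 -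
        Real.log ((m : ℝ) + 1))) := by
    have h2 : Real.sqrt (((m : ℝ) + 1) ^ 2 + t ^ 2) / (m + 1) =
        Real.exp (Real.log (((m : ℝ) + 1) ^ 2 + t ^ 2) / 2 - Real.log ((m : ℝ) + 1)) := by
      rw [Real.exp_sub, Real.exp_log hb, ← Real.log_sqrt h0.le, Real.exp_log (Real.sqrt_pos.2 h0)]
    rw [h2, ← Real.exp_nat_mul]
    push_cast
    rfl
  rw [cG, h1, gg, FF, sub_eq_add_neg _ (t * _), Real.exp_add]
  ring

theorem gg_step (m : ℕ) (t : ℝ) :
    gg (m + 1) t ≤ gg m t * Real.sqrt (((m : ℝ) + 1) ^ 2 + t ^ 2) := by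
  have hb : (0 : ℝ) < (m : ℝ) + 1 := by positivity
  have h0 : (0 : ℝ) < ((m : ℝ) + 1) ^ 2 + t ^ 2 := by positivity
  have h1 := FF_step t hb
  have h2 : Real.exp (FD t ((m : ℝ) + 1)) = Real.sqrt (((m : ℝ) + 1) ^ 2 + t ^ 2) / (m + 1) := by
    rw [FD, Real.exp_sub, Real.exp_log hb, ← Real.log_sqrt h0.le,
      Real.exp_log (Real.sqrt_pos.2 h0)]
  have h3 : Real.exp (FF t ((m : ℝ) + 1 + 1)) ≤
      Real.exp (FF t ((m : ℝ) + 1)) * (Real.sqrt (((m : ℝ) + 1) ^ 2 + t ^ 2) / (m + 1)) := by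
    rw [← h2, ← Real.exp_add]
    exact Real.exp_le_exp.2 (by linarith)
  rw [gg, gg, Nat.factorial_succ]
  push_cast
  have h4 : (0 : ℝ) < (m.factorial : ℝ) := by exact_mod_cast m.factorial_pos
  calc ((m : ℝ) + 1) * (m.factorial : ℝ) * Real.exp (FF t ((m : ℝ) + 1 + 1))
      ≤ ((m : ℝ) + 1) * (m.factorial : ℝ) *
        (Real.exp (FF t ((m : ℝ) + 1)) * (Real.sqrt (((m : ℝ) + 1) ^ 2 + t ^ 2) / (m + 1))) := by
        gcongr
    _ = _ := by
        field_simp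

theorem arctan_le_self' {x : ℝ} (hx : 0 ≤ x) : Real.arctan x ≤ x := by
  have h1 := Real.arctan_lt_pi_div_two x
  rcases hx.eq_or_lt with h | h
  · rw [← h, Real.arctan_zero]
  · have h2 : 0 < Real.arctan x := Real.arctan_pos.2 h
    have h3 := Real.lt_tan h2 h1
    rw [Real.tan_arctan] at h3
    exact h3.le

theorem base (t : ℝ) : gg 0 t ≤ Real.exp 1 * (1 + |t|) * Real.exp (-(π * |t| / 2)) := by
  have h0 : (0 : ℝ) < 1 + t ^ 2 := by positivity
  have h1 : gg 0 t = Real.sqrt (1 + t ^ 2) * Real.exp (-(t * Real.arctan t)) := by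
    rw [gg, FF]
    simp only [Nat.cast_zero, zero_add, Nat.factorial_zero, Nat.cast_one, one_mul, one_pow,
      Real.log_one, sub_zero, div_one]
    rw [sub_eq_add_neg, Real.exp_add, ← Real.log_sqrt h0.le, Real.exp_log (Real.sqrt_pos.2 h0)]
  have h2 : Real.sqrt (1 + t ^ 2) ≤ 1 + |t| := by
    rw [Real.sqrt_le_left (by positivity)]
    nlinarith [abs_nonneg t, sq_abs t]
  have h3 : π * |t| / 2 - 1 ≤ t * Real.arctan t := by
    have h4 : t * Real.arctan t = |t| * Real.arctan |t| := by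
      rcases le_or_gt 0 t with h | h
      · rw [abs_of_nonneg h]
      · rw [abs_of_neg h, Real.arctan_neg]
        ring
    rw [h4]
    rcases (abs_nonneg t).eq_or_lt with h | h
    · rw [← h]
      norm_num
    · have h5 := Real.arctan_inv_of_pos h
      have h6 := arctan_le_self' (inv_nonneg.2 h.le)
      have h7 : |t| * |t|⁻¹ = 1 := mul_inv_cancel₀ h.ne'
      rw [h5] at h6
      have h8 := mul_le_mul_of_nonneg_left h6 h.le
      rw [h7] at h8
      nlinarith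
  rw [h1]
  have h4 : Real.exp (-(t * Real.arctan t)) ≤ Real.exp 1 * Real.exp (-(π * |t| / 2)) := by
    rw [← Real.exp_add]
    exact Real.exp_le_exp.2 (by linarith)
  calc Real.sqrt (1 + t ^ 2) * Real.exp (-(t * Real.arctan t))
      ≤ (1 + |t|) * (Real.exp 1 * Real.exp (-(π * |t| / 2))) := by gcongr
    _ = _ := by ring

theorem gg_le (m : ℕ) (s : ℂ) (hs : |s.re - 1 / 2| ≤ 1 / 8) :
    gg m s.im ≤ Real.exp 1 * (2 * G0) * (1 + |s.im| + m) ^ 3 * ‖Complex.Gamma (s + m)‖ := by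
  have hG := G0_pos
  have ht := abs_nonneg s.im
  obtain ⟨h1, h2⟩ := abs_le.1 hs
  induction m with
  | zero =>
    have h3 := Gamma_low s hs
    have h4 := base s.im
    have hn := norm_nonneg (Complex.Gamma s)
    rw [Nat.cast_zero, Nat.cast_zero, add_zero, add_zero]
    have h5 : (1 + |s.im|) ^ 2 ≤ (1 + |s.im|) ^ 3 :=
      pow_le_pow_right₀ (by linarith) (by norm_num)
    calc gg 0 s.im ≤ Real.exp 1 * (1 + |s.im|) * Real.exp (-(π * |s.im| / 2)) := h4
      _ ≤ Real.exp 1 * (1 + |s.im|) * (2 * G0 * (1 + |s.im|) * ‖Complex.Gamma s‖) := by gcongr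
      _ = Real.exp 1 * (2 * G0) * (1 + |s.im|) ^ 2 * ‖Complex.Gamma s‖ := by ring
      _ ≤ Real.exp 1 * (2 * G0) * (1 + |s.im|) ^ 3 * ‖Complex.Gamma s‖ := by gcongr
  | succ m ih =>
    have hre : (s + m).re = s.re + m := by simp
    have him : (s + m).im = s.im := by simp
    have hm : (0 : ℝ) ≤ m := Nat.cast_nonneg m
    have hne : s + m ≠ 0 := by
      intro h
      have := congrArg Complex.re h
      rw [hre, Complex.zero_re] at this
      linarith
    have hΓ : ‖Complex.Gamma (s + ((m + 1 : ℕ) : ℂ))‖ = ‖s + m‖ * ‖Complex.Gamma (s + m)‖ := by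
      have e : s + ((m + 1 : ℕ) : ℂ) = s + m + 1 := by push_cast; ring
      rw [e, Complex.Gamma_add_one _ hne, norm_mul]
    rw [hΓ]
    have hn := norm_nonneg (Complex.Gamma (s + m))
    have hz := norm_nonneg (s + m)
    have hsq : ‖s + m‖ ^ 2 = (s.re + m) ^ 2 + s.im ^ 2 := by
      rw [← Complex.normSq_eq_norm_sq, Complex.normSq_apply, hre, him]
      ring
    obtain ⟨A, hA⟩ : ∃ A : ℝ, A = 1 + |s.im| + m := ⟨_, rfl⟩
    have hA1 : 1 ≤ A := by rw [hA]; linarith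
    have hlow : A / 4 ≤ ‖s + m‖ := by
      have h3 : (A / 4) ^ 2 ≤ ‖s + m‖ ^ 2 := by
        rw [hsq, ← sq_abs s.im]
        have h4 : (m : ℝ) + 1 ≤ 8 / 3 * (s.re + m) := by linarith
        have h5 : A ≤ |s.im| + 8 / 3 * (s.re + m) := by rw [hA]; linarith
        have h6 : A ^ 2 ≤ (|s.im| + 8 / 3 * (s.re + m)) ^ 2 := pow_le_pow_left₀ (by linarith) h5 2
        nlinarith [sq_nonneg (8 / 3 * |s.im| - (s.re + m)), sq_nonneg |s.im|,
          sq_nonneg (s.re + m)]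
      exact (pow_le_pow_iff_left₀ (by linarith) hz (by norm_num)).1 h3
    have hup : Real.sqrt (((m : ℝ) + 1) ^ 2 + s.im ^ 2) ≤ ‖s + m‖ + 5 / 8 := by
      have h3 : Real.sqrt (((m : ℝ) + 1) ^ 2 + s.im ^ 2) =
          ‖((m : ℂ) + 1 + s.im * Complex.I)‖ := by
        rw [Complex.norm_def, Complex.normSq_apply]
        congr 1
        simp
        ring
      have h4 : ((m : ℂ) + 1 + s.im * Complex.I) = (s + m) + ((1 - s.re : ℝ) : ℂ) := by
        apply Complex.ext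
        · simp
          ring
        · simp
      rw [h3, h4]
      refine (norm_add_le _ _).trans ?_
      rw [Complex.norm_real, Real.norm_of_nonneg (by linarith)]
      linarith
    have hkey : A ^ 3 * Real.sqrt (((m : ℝ) + 1) ^ 2 + s.im ^ 2) ≤ (A + 1) ^ 3 * ‖s + m‖ := by
      have h3 : A ^ 3 * Real.sqrt (((m : ℝ) + 1) ^ 2 + s.im ^ 2) ≤ A ^ 3 * (‖s + m‖ + 5 / 8) := by
        gcongr
      have h4 : A ^ 3 * (5 / 8) ≤ 5 / 2 * A ^ 2 * ‖s + m‖ := by
        have h5 : 5 / 2 * A ^ 2 * (A / 4) ≤ 5 / 2 * A ^ 2 * ‖s + m‖ := by gcongr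
        nlinarith
      have h5 : (A + 1) ^ 3 = A ^ 3 + 3 * A ^ 2 + 3 * A + 1 := by ring
      rw [h5]
      nlinarith [mul_nonneg (sq_nonneg A) hz, mul_nonneg (show 0 ≤ A by linarith) hz]
    have hA2 : 1 + |s.im| + ((m + 1 : ℕ) : ℝ) = A + 1 := by
      rw [hA]
      push_cast
      ring
    rw [hA2]
    rw [← hA] at ih
    calc gg (m + 1) s.im ≤ gg m s.im * Real.sqrt (((m : ℝ) + 1) ^ 2 + s.im ^ 2) := gg_step m s.im
      _ ≤ Real.exp 1 * (2 * G0) * A ^ 3 * ‖Complex.Gamma (s + m)‖ *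
          Real.sqrt (((m : ℝ) + 1) ^ 2 + s.im ^ 2) := by gcongr
      _ = Real.exp 1 * (2 * G0) * ‖Complex.Gamma (s + m)‖ *
          (A ^ 3 * Real.sqrt (((m : ℝ) + 1) ^ 2 + s.im ^ 2)) := by ring
      _ ≤ Real.exp 1 * (2 * G0) * ‖Complex.Gamma (s + m)‖ * ((A + 1) ^ 3 * ‖s + m‖) := by gcongr
      _ = _ := by ring

theorem pf_GMLc : T_GMLc := by
  have hπ := Real.pi_pos
  have hG := G0_pos
  refine ⟨Real.exp 1 * (2 * G0) * ((64 / 9) * (2 * π)), 3, by positivity, fun m s hs => ?_⟩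
  have h0 := gg_le m s hs
  obtain ⟨h1, h2⟩ := abs_le.1 hs
  have ht := abs_nonneg s.im
  have hn := norm_nonneg (Complex.Gamma (s + m))
  have hs1 : 3 / 8 ≤ ‖s‖ := by
    have h3 := Complex.abs_re_le_norm s
    have h4 := le_abs_self s.re
    linarith
  have hs2 : 3 / 8 ≤ ‖s - 1‖ := by
    have h3 := Complex.abs_re_le_norm (s - 1)
    rw [Complex.sub_re, Complex.one_re] at h3
    have h4 := neg_abs_le (s.re - 1)
    linarith
  have hp : (2 * π)⁻¹ * ((2 * π) ^ m)⁻¹ ≤ ‖(2 * (π : ℂ)) ^ (-(s + m))‖ := by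
    have e : (2 * (π : ℂ)) = ((2 * π : ℝ) : ℂ) := by push_cast; ring
    have e2 : (2 * π)⁻¹ * ((2 * π) ^ m)⁻¹ = (2 * π : ℝ) ^ (-(1 + (m : ℝ))) := by
      rw [Real.rpow_neg (by positivity), Real.rpow_add (by positivity), Real.rpow_one,
        Real.rpow_natCast]
      exact (mul_inv _ _).symm
    rw [e, Complex.norm_cpow_eq_rpow_re_of_pos (by positivity), Complex.neg_re, e2]
    refine Real.rpow_le_rpow_of_exponent_le ?_ ?_
    · have := Real.pi_gt_three
      linarith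
    · rw [Complex.add_re, Complex.natCast_re]
      linarith
  have hg : ‖gM m s‖ = ‖s‖ * ‖s - 1‖ * ‖Complex.Gamma (s + m)‖ *
      ‖(2 * (π : ℂ)) ^ (-(s + m))‖ := by
    unfold gM
    rw [norm_mul, norm_mul, norm_mul]
  have h5 : (3 / 8) * (3 / 8) * ‖Complex.Gamma (s + m)‖ * ((2 * π)⁻¹ * ((2 * π) ^ m)⁻¹) ≤
      ‖gM m s‖ := by
    rw [hg]
    gcongr
  have h6 : ‖Complex.Gamma (s + m)‖ / (2 * π) ^ m ≤ (64 / 9) * (2 * π) * ‖gM m s‖ := by
    have h7 : (64 / 9) * (2 * π) * ((3 / 8) * (3 / 8) * ‖Complex.Gamma (s + m)‖ *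
        ((2 * π)⁻¹ * ((2 * π) ^ m)⁻¹)) = ‖Complex.Gamma (s + m)‖ / (2 * π) ^ m := by
      field_simp
      ring
    calc ‖Complex.Gamma (s + m)‖ / (2 * π) ^ m = (64 / 9) * (2 * π) * ((3 / 8) * (3 / 8) *
          ‖Complex.Gamma (s + m)‖ * ((2 * π)⁻¹ * ((2 * π) ^ m)⁻¹)) := h7.symm
      _ ≤ _ := by gcongr
  rw [gg_eq]
  calc gg m s.im / (2 * π) ^ m
      ≤ Real.exp 1 * (2 * G0) * (1 + |s.im| + m) ^ 3 * ‖Complex.Gamma (s + m)‖ /
        (2 * π) ^ m := by gcongr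
    _ = Real.exp 1 * (2 * G0) * (1 + |s.im| + m) ^ 3 *
        (‖Complex.Gamma (s + m)‖ / (2 * π) ^ m) := by ring
    _ ≤ Real.exp 1 * (2 * G0) * (1 + |s.im| + m) ^ 3 * ((64 / 9) * (2 * π) * ‖gM m s‖) := by
        gcongr
    _ = _ := by ring

end Pool.Agent.H42.FC
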