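import Pool.Agent.H23.FC.Targets
import Pool.Agent.H75.FM.THH
import Pool.Agent.H17.FM.INV

/-!
MP_52e316_nt, board fmx_modules, row KTL: the inversion of the theta function with an angular
factor on the real line.
-/

set_option autoImplicit false

open MeasureTheory Set Filter
open scoped Real Topology

namespace Pool.Agent.H42.FC

open Pool.Agent.H31.CN Pool.Agent.H89.FM Pool.Agent.H89.FC Pool.Agent.H23.FC

/-- the conjugate of the linear form -/
noncomputable def lb (x y : ℝ) (v : ℤ × ℤ) : ℂ := (v.1 : ℂ) + v.2 * (x - y * Complex.I)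

/-- the exponential factor -/
noncomputable def ex (n : ℕ) (x y u : ℝ) (v : ℤ × ℤ) : ℝ :=
  Real.exp (-(2 * π * u * (qz x y v / n)))

/-- the terms of the theta function -/
noncomputable def GG (n k : ℕ) (x y u : ℝ) (v : ℤ × ℤ) : ℂ :=
  lb x y v ^ (2 * k) * (ex n x y u v : ℂ)

/-- the derivative of the form in the direction `(c, d)` -/
noncomputable def dqz (c d x y : ℝ) (v : ℤ × ℤ) : ℝ :=
  c * (((v.1 : ℝ) + v.2 * x) * v.2 / y) +
    d * (-((v.1 : ℝ) + v.2 * x) ^ 2 / (2 * y ^ 2) + (v.2 : ℝ) ^ 2 / 2)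

/-- the derivative of the terms in the direction `(c, d)` -/
noncomputable def GD (n k : ℕ) (c d x y u : ℝ) (v : ℤ × ℤ) : ℂ :=
  ((2 * k : ℕ) : ℂ) * lb x y v ^ (2 * k - 1) * (v.2 * (c - d * Complex.I)) * (ex n x y u v : ℂ) +
    lb x y v ^ (2 * k) *
      ((ex n x y u v * (-(2 * π * u * (dqz c d x y v / n))) : ℝ) : ℂ)

theorem hasDerivAt_lb (c d x y t : ℝ) (v : ℤ × ℤ) :
    HasDerivAt (fun t : ℝ => lb (x + c * t) (y + d * t) v) (v.2 * (c - d * Complex.I)) t := by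
  have h1 : HasDerivAt (fun t : ℝ => ((x + c * t : ℝ) : ℂ)) ((c * 1 : ℝ) : ℂ) t :=
    (((hasDerivAt_id t).const_mul c).const_add x).ofReal_comp
  have h2 : HasDerivAt (fun t : ℝ => ((y + d * t : ℝ) : ℂ)) ((d * 1 : ℝ) : ℂ) t :=
    (((hasDerivAt_id t).const_mul d).const_add y).ofReal_comp
  have h3 := ((h1.sub (h2.mul_const Complex.I)).const_mul (v.2 : ℂ)).const_add (v.1 : ℂ)
  rw [mul_one, mul_one] at h3
  exact h3

theorem hasDerivAt_qz (c d x y t : ℝ) (hy : 0 < y + d * t) (v : ℤ × ℤ) :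
    HasDerivAt (fun t : ℝ => qz (x + c * t) (y + d * t) v) (dqz c d (x + c * t) (y + d * t) v)
      t := by
  have h1 : HasDerivAt (fun t : ℝ => x + c * t) (c * 1) t :=
    ((hasDerivAt_id t).const_mul c).const_add x
  have h2 : HasDerivAt (fun t : ℝ => y + d * t) (d * 1) t :=
    ((hasDerivAt_id t).const_mul d).const_add y
  have h3 := ((h1.const_mul (v.2 : ℝ)).const_add (v.1 : ℝ)).pow 2
  have h4 := (h2.const_mul (v.2 : ℝ)).pow 2
  have h5 := (h3.add h4).div (h2.const_mul 2) (by positivity)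
  have h6 : dqz c d (x + c * t) (y + d * t) v =
      (((2 : ℕ) * ((v.1 : ℝ) + v.2 * (x + c * t)) ^ (2 - 1) * (v.2 * (c * 1)) +
      (2 : ℕ) * ((v.2 : ℝ) * (y + d * t)) ^ (2 - 1) * (v.2 * (d * 1))) * (2 * (y + d * t)) -
      (((v.1 : ℝ) + v.2 * (x + c * t)) ^ 2 + ((v.2 : ℝ) * (y + d * t)) ^ 2) * (2 * (d * 1))) /
      (2 * (y + d * t)) ^ 2 := by
    unfold dqz
    generalize y + d * t = Y at hy ⊢
    generalize x + c * t = X
    have hne := hy.ne'
    rw [show (2 : ℕ) - 1 = 1 from rfl, pow_one, pow_one]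
    push_cast
    field_simp
    ring
  rw [h6]
  exact h5

theorem hasDerivAt_GG (n k : ℕ) (c d x y u t : ℝ) (hy : 0 < y + d * t) (v : ℤ × ℤ) :
    HasDerivAt (fun t : ℝ => GG n k (x + c * t) (y + d * t) u v)
      (GD n k c d (x + c * t) (y + d * t) u v) t := by
  have h1 := (hasDerivAt_lb c d x y t v).pow (2 * k)
  have h2 := ((((hasDerivAt_qz c d x y t hy v).div_const (n : ℝ)).const_mul (2 * π * u)).neg.exp)
  exact h1.mul h2.ofReal_comp

/-- the size of a vector -/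
noncomputable def PP (v : ℤ × ℤ) : ℝ := 1 + |(v.1 : ℝ)| + |(v.2 : ℝ)|

theorem PP_one (v : ℤ × ℤ) : 1 ≤ PP v := by
  unfold PP
  have := abs_nonneg (v.1 : ℝ)
  have := abs_nonneg (v.2 : ℝ)
  linarith

theorem maj (n : ℕ) (hn : 1 ≤ n) (u X a b : ℝ) (hu : 0 < u) (ha : 0 < a) (hb : 0 < b)
    (j : ℕ) : ∃ W : ℤ × ℤ → ℝ, Summable W ∧ ∀ v x y, |x| ≤ X → a ≤ y → y ≤ b →
      PP v ^ j * ex n x y u v ≤ W v := by
  have hn' : (0 : ℝ) < n := by exact_mod_cast hn
  obtain ⟨M, hM⟩ : ∃ M : ℝ, M = 2 + (2 * X ^ 2 + 1) / a ^ 2 := ⟨_, rfl⟩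
  have hM0 : 0 < M := by rw [hM]; positivity
  obtain ⟨δ, hδ⟩ : ∃ δ : ℝ, δ = π * u / (2 * (b * n * M)) := ⟨_, rfl⟩
  have hδ0 : 0 < δ := by rw [hδ]; positivity
  refine ⟨fun v => (3 ^ j * (Real.exp (2 * δ) * (j.factorial / δ ^ j))) *
    Real.exp (-(2 * π * (δ / π) * (qz 0 1 v / (1 : ℕ)))),
    (Pool.Agent.H75.FM.summ_all 0 1 (δ / π) 1 le_rfl one_pos (by positivity)).mul_left _,
    fun v x y hx hy hyb => ?_⟩
  have hy0 : 0 < y := ha.trans_le hy
  obtain ⟨r, hr⟩ : ∃ r : ℝ, r = (v.1 : ℝ) ^ 2 + (v.2 : ℝ) ^ 2 := ⟨_, rfl⟩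
  have hr0 : 0 ≤ r := by rw [hr]; positivity
  have hP : PP v ≤ 3 * (1 + r) := by
    unfold PP
    rw [hr, ← sq_abs (v.1 : ℝ), ← sq_abs (v.2 : ℝ)]
    nlinarith [sq_nonneg (|(v.1 : ℝ)| - 1), sq_nonneg (|(v.2 : ℝ)| - 1), abs_nonneg (v.1 : ℝ),
      abs_nonneg (v.2 : ℝ)]
  -- the lower bound of the form
  have hq : r ≤ 2 * b * M * qz x y v := by
    have hX : x ^ 2 ≤ X ^ 2 := by
      rw [← sq_abs x]
      exact pow_le_pow_left₀ (abs_nonneg x) hx 2
    obtain ⟨A, hA⟩ : ∃ A : ℝ, A = (v.1 : ℝ) + v.2 * x := ⟨_, rfl⟩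
    obtain ⟨B, hB⟩ : ∃ B : ℝ, B = (v.2 : ℝ) * y := ⟨_, rfl⟩
    have h2 : a ^ 2 * (v.2 : ℝ) ^ 2 ≤ B ^ 2 := by
      rw [hB, mul_pow, mul_comm]
      exact mul_le_mul_of_nonneg_left (pow_le_pow_left₀ ha.le hy 2) (sq_nonneg _)
    have h1 : (v.1 : ℝ) ^ 2 ≤ 2 * A ^ 2 + 2 * ((v.2 : ℝ) ^ 2 * X ^ 2) := by
      have e : (v.1 : ℝ) = A - v.2 * x := by rw [hA]; ring
      rw [e]
      have h3 : (v.2 : ℝ) ^ 2 * x ^ 2 ≤ (v.2 : ℝ) ^ 2 * X ^ 2 :=
        mul_le_mul_of_nonneg_left hX (sq_nonneg _)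
      nlinarith [sq_nonneg (A + v.2 * x)]
    have h3 : r ≤ 2 * A ^ 2 + (2 * X ^ 2 + 1) * (v.2 : ℝ) ^ 2 := by rw [hr]; linarith
    have h4 : (2 * X ^ 2 + 1) * (v.2 : ℝ) ^ 2 ≤ (2 * X ^ 2 + 1) / a ^ 2 * B ^ 2 := by
      rw [div_mul_eq_mul_div, le_div_iff₀ (by positivity)]
      have := mul_le_mul_of_nonneg_left h2 (show 0 ≤ 2 * X ^ 2 + 1 by positivity)
      linarith
    have h5 : r ≤ M * (A ^ 2 + B ^ 2) := by
      rw [hM]
      have h6 : 0 ≤ (2 * X ^ 2 + 1) / a ^ 2 * A ^ 2 := by positivity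
      nlinarith [sq_nonneg B]
    have h6 : A ^ 2 + B ^ 2 = 2 * y * qz x y v := by
      unfold qz
      rw [← hA, ← hB]
      field_simp
    have h7 : 0 ≤ qz x y v := Pool.Agent.H75.FM.qz_nonneg x y hy0 v
    calc r ≤ M * (A ^ 2 + B ^ 2) := h5
      _ = 2 * y * M * qz x y v := by rw [h6]; ring
      _ ≤ 2 * b * M * qz x y v := by gcongr
  have he : ex n x y u v ≤ Real.exp (2 * δ) * Real.exp (-(2 * δ * (1 + r))) := by
    unfold ex
    rw [← Real.exp_add]
    refine Real.exp_le_exp.2 ?_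
    have h1 : 2 * δ * r ≤ 2 * π * u * (qz x y v / n) := by
      calc 2 * δ * r ≤ 2 * δ * (2 * b * M * qz x y v) :=
            mul_le_mul_of_nonneg_left hq (by positivity)
        _ = 2 * π * u * (qz x y v / n) := by
            rw [hδ]
            field_simp
    linarith
  have h8 := Pool.Agent.H17.FM.pow_exp_le j δ (1 + r) hδ0 (by positivity)
  have hq1 : 2 * π * (δ / π) * (qz 0 1 v / (1 : ℕ)) = δ * r := by
    unfold qz
    rw [hr]
    push_cast
    field_simp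
    ring
  show _ ≤ (3 ^ j * (Real.exp (2 * δ) * (j.factorial / δ ^ j))) *
    Real.exp (-(2 * π * (δ / π) * (qz 0 1 v / (1 : ℕ))))
  rw [hq1]
  have hPP := PP_one v
  calc PP v ^ j * ex n x y u v ≤ (3 * (1 + r)) ^ j *
        (Real.exp (2 * δ) * Real.exp (-(2 * δ * (1 + r)))) := by
        refine mul_le_mul (pow_le_pow_left₀ (by linarith) hP j) he (Real.exp_pos _).le
          (by positivity)
    _ = 3 ^ j * Real.exp (2 * δ) * ((1 + r) ^ j * Real.exp (-(2 * δ * (1 + r)))) := by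
        rw [mul_pow]
        ring
    _ ≤ 3 ^ j * Real.exp (2 * δ) * ((j.factorial / δ ^ j) * Real.exp (-(δ * (1 + r)))) := by
        gcongr
    _ ≤ 3 ^ j * Real.exp (2 * δ) * ((j.factorial / δ ^ j) * Real.exp (-(δ * r))) := by
        have : -(δ * (1 + r)) ≤ -(δ * r) := by linarith
        gcongr
    _ = _ := by ring

theorem norm_lb_le (x y X b : ℝ) (v : ℤ × ℤ) (hx : |x| ≤ X) (hy : 0 < y) (hyb : y ≤ b) :
    ‖lb x y v‖ ≤ (1 + X + b) * PP v := by
  unfold lb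
  have h1 : ‖(v.1 : ℂ)‖ = |(v.1 : ℝ)| := by
    rw [← Complex.ofReal_intCast, Complex.norm_real, Real.norm_eq_abs]
  have h2 : ‖(v.2 : ℂ)‖ = |(v.2 : ℝ)| := by
    rw [← Complex.ofReal_intCast, Complex.norm_real, Real.norm_eq_abs]
  have h3 : ‖(x : ℂ) - y * Complex.I‖ ≤ X + b := by
    refine (norm_sub_le _ _).trans ?_
    rw [norm_mul, Complex.norm_I, mul_one, Complex.norm_real, Complex.norm_real,
      Real.norm_eq_abs, Real.norm_eq_abs, abs_of_pos hy]
    linarith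
  have h4 := abs_nonneg (v.1 : ℝ)
  have h5 := abs_nonneg (v.2 : ℝ)
  have h6 : 0 ≤ X := (abs_nonneg x).trans hx
  have h7 : 0 < b := hy.trans_le hyb
  calc ‖(v.1 : ℂ) + v.2 * (x - y * Complex.I)‖ ≤ ‖(v.1 : ℂ)‖ + ‖(v.2 : ℂ) * (x - y * Complex.I)‖ :=
        norm_add_le _ _
    _ = |(v.1 : ℝ)| + |(v.2 : ℝ)| * ‖(x : ℂ) - y * Complex.I‖ := by rw [norm_mul, h1, h2]
    _ ≤ |(v.1 : ℝ)| + |(v.2 : ℝ)| * (X + b) := by gcongr
    _ ≤ (1 + X + b) * PP v := by
        unfold PP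
        nlinarith [mul_nonneg h6 h4, mul_nonneg h7.le h4, mul_nonneg h6 h5, mul_nonneg h7.le h5]

theorem norm_GG_le (n k : ℕ) (x y X b u : ℝ) (v : ℤ × ℤ) (hx : |x| ≤ X) (hy : 0 < y)
    (hyb : y ≤ b) : ‖GG n k x y u v‖ ≤ (1 + X + b) ^ (2 * k) * (PP v ^ (2 * k) * ex n x y u v) := by
  have h1 := norm_lb_le x y X b v hx hy hyb
  have h2 : 0 < ex n x y u v := Real.exp_pos _
  unfold GG
  rw [norm_mul, norm_pow, Complex.norm_real, Real.norm_of_nonneg h2.le]
  calc ‖lb x y v‖ ^ (2 * k) * ex n x y u v ≤ ((1 + X + b) * PP v) ^ (2 * k) * ex n x y u v := by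
        gcongr
    _ = _ := by rw [mul_pow]; ring

theorem norm_GD_le (n k : ℕ) (hn : 1 ≤ n) (c d x y X a b u : ℝ) (v : ℤ × ℤ) (hx : |x| ≤ X)
    (ha : 0 < a) (hay : a ≤ y) (hyb : y ≤ b) (hu : 0 < u) (hc : |c| ≤ 1) (hd : |d| ≤ 1) :
    ‖GD n k c d x y u v‖ ≤ (4 * k * (1 + X + b) ^ (2 * k) + (1 + X + b) ^ (2 * k) *
      (2 * π * u * ((1 + X) / a + ((1 + X) ^ 2 / (2 * a ^ 2) + 1 / 2)))) *
      (PP v ^ (2 * k + 2) * ex n x y u v) := by
  have hn' : (1 : ℝ) ≤ n := by exact_mod_cast hn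
  have hy : 0 < y := ha.trans_le hay
  have h1 := norm_lb_le x y X b v hx hy hyb
  have h2 : 0 < ex n x y u v := Real.exp_pos _
  have hX : 0 ≤ X := (abs_nonneg x).trans hx
  have hb : 0 < b := hy.trans_le hyb
  have hP := PP_one v
  have hv2 : |(v.2 : ℝ)| ≤ PP v := by
    unfold PP
    linarith [abs_nonneg (v.1 : ℝ)]
  have hA : |(v.1 : ℝ) + v.2 * x| ≤ (1 + X) * PP v := by
    refine (abs_add_le _ _).trans ?_
    rw [abs_mul]
    have h3 : |(v.2 : ℝ)| * |x| ≤ |(v.2 : ℝ)| * X := by gcongr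
    unfold PP
    nlinarith [abs_nonneg (v.1 : ℝ), abs_nonneg (v.2 : ℝ), mul_nonneg hX (abs_nonneg (v.1 : ℝ))]
  obtain ⟨R, hR⟩ : ∃ R : ℝ, R = 1 + X + b := ⟨_, rfl⟩
  rw [← hR] at h1 ⊢
  have hR1 : 1 ≤ R := by rw [hR]; linarith
  have hRP : 1 ≤ R * PP v := by nlinarith
  have hcd : ‖(c : ℂ) - d * Complex.I‖ ≤ 2 := by
    refine (norm_sub_le _ _).trans ?_
    rw [norm_mul, Complex.norm_I, mul_one, Complex.norm_real, Complex.norm_real,
      Real.norm_eq_abs, Real.norm_eq_abs]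
    linarith
  have hv2n : ‖(v.2 : ℂ)‖ = |(v.2 : ℝ)| := by
    rw [← Complex.ofReal_intCast, Complex.norm_real, Real.norm_eq_abs]
  -- the first part
  have hfirst : ‖((2 * k : ℕ) : ℂ) * lb x y v ^ (2 * k - 1) * (v.2 * (c - d * Complex.I)) *
      (ex n x y u v : ℂ)‖ ≤ 4 * k * R ^ (2 * k) * (PP v ^ (2 * k + 2) * ex n x y u v) := by
    rw [norm_mul, norm_mul, norm_mul, norm_mul, norm_pow, Complex.norm_real,
      Real.norm_of_nonneg h2.le, hv2n, Complex.norm_natCast]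
    push_cast
    have h3 : ‖lb x y v‖ ^ (2 * k - 1) ≤ R ^ (2 * k) * PP v ^ (2 * k) := by
      rw [← mul_pow]
      exact (pow_le_pow_left₀ (norm_nonneg _) h1 _).trans
        (pow_le_pow_right₀ hRP (Nat.sub_le _ _))
    have h4 : PP v ^ (2 * k + 2) = PP v ^ (2 * k) * PP v * PP v := by ring
    calc 2 * (k : ℝ) * ‖lb x y v‖ ^ (2 * k - 1) * (|(v.2 : ℝ)| * ‖(c : ℂ) - d * Complex.I‖) *
          ex n x y u v ≤ 2 * (k : ℝ) * (R ^ (2 * k) * PP v ^ (2 * k)) * (PP v * 2) *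
          ex n x y u v := by gcongr
      _ = 4 * k * R ^ (2 * k) * (PP v ^ (2 * k) * PP v * ex n x y u v) * 1 := by ring
      _ ≤ 4 * k * R ^ (2 * k) * (PP v ^ (2 * k) * PP v * ex n x y u v) * PP v := by gcongr
      _ = _ := by rw [h4]; ring
  have hq : |dqz c d x y v / n| ≤
      ((1 + X) / a + ((1 + X) ^ 2 / (2 * a ^ 2) + 1 / 2)) * PP v ^ 2 := by
    have h3 : |dqz c d x y v| ≤
        ((1 + X) / a + ((1 + X) ^ 2 / (2 * a ^ 2) + 1 / 2)) * PP v ^ 2 := by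
      unfold dqz
      refine (abs_add_le _ _).trans ?_
      rw [abs_mul, abs_mul]
      have h4 : |((v.1 : ℝ) + v.2 * x) * v.2 / y| ≤ (1 + X) / a * PP v ^ 2 := by
        rw [abs_div, abs_mul, abs_of_pos hy]
        calc |(v.1 : ℝ) + v.2 * x| * |(v.2 : ℝ)| / y ≤ ((1 + X) * PP v) * PP v / a := by gcongr
          _ = _ := by ring
      have h5 : |-((v.1 : ℝ) + v.2 * x) ^ 2 / (2 * y ^ 2) + (v.2 : ℝ) ^ 2 / 2| ≤
          ((1 + X) ^ 2 / (2 * a ^ 2) + 1 / 2) * PP v ^ 2 := by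
        refine (abs_add_le _ _).trans ?_
        rw [abs_div, abs_neg, abs_pow, abs_div, abs_pow, abs_of_pos (show 0 < 2 * y ^ 2 by positivity),
          abs_of_pos (show (0 : ℝ) < 2 by norm_num)]
        calc |(v.1 : ℝ) + v.2 * x| ^ 2 / (2 * y ^ 2) + |(v.2 : ℝ)| ^ 2 / 2 ≤
            ((1 + X) * PP v) ^ 2 / (2 * a ^ 2) + PP v ^ 2 / 2 := by gcongr
          _ = _ := by ring
      have h6 := mul_le_mul hc h4 (abs_nonneg _) zero_le_one
      have h7 := mul_le_mul hd h5 (abs_nonneg _) zero_le_one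
      linarith
    rw [abs_div, abs_of_pos (show (0 : ℝ) < n by linarith)]
    exact (div_le_self (abs_nonneg _) hn').trans h3
  have hsecond : ‖lb x y v ^ (2 * k) *
      ((ex n x y u v * (-(2 * π * u * (dqz c d x y v / n))) : ℝ) : ℂ)‖ ≤
      R ^ (2 * k) * (2 * π * u * ((1 + X) / a + ((1 + X) ^ 2 / (2 * a ^ 2) + 1 / 2))) *
      (PP v ^ (2 * k + 2) * ex n x y u v) := by
    rw [norm_mul, norm_pow, Complex.norm_real, Real.norm_eq_abs, abs_mul, abs_neg, abs_mul,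
      abs_of_pos h2, abs_of_pos (show 0 < 2 * π * u by positivity)]
    calc ‖lb x y v‖ ^ (2 * k) * (ex n x y u v * (2 * π * u * |dqz c d x y v / n|)) ≤
        (R * PP v) ^ (2 * k) * (ex n x y u v * (2 * π * u *
          (((1 + X) / a + ((1 + X) ^ 2 / (2 * a ^ 2) + 1 / 2)) * PP v ^ 2))) := by gcongr
      _ = _ := by
        rw [mul_pow]
        ring
  unfold GD
  refine (norm_add_le _ _).trans ?_
  rw [add_mul]
  exact add_le_add hfirst hsecond

open Classical in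
/-- the theta function of weight `2 k` -/
noncomputable def HH (n k : ℕ) (L : AddSubgroup (ℤ × ℤ)) (x y u : ℝ) : ℂ :=
  ∑' v : ℤ × ℤ, if v ∈ L then GG n k x y u v else 0

open Classical in
/-- the derivative of the theta function of weight `2 k` -/
noncomputable def HD (n k : ℕ) (L : AddSubgroup (ℤ × ℤ)) (c d x y u : ℝ) : ℂ :=
  ∑' v : ℤ × ℤ, if v ∈ L then GD n k c d x y u v else 0

open Classical in
theorem summ_GG (n k : ℕ) (hn : 1 ≤ n) (L : AddSubgroup (ℤ × ℤ)) (x y u : ℝ) (hy : 0 < y)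
    (hu : 0 < u) : Summable (fun v : ℤ × ℤ => if v ∈ L then GG n k x y u v else 0) := by
  obtain ⟨W, hW, h⟩ := maj n hn u |x| y y hu hy hy (2 * k)
  refine Summable.of_norm_bounded (hW.mul_left ((1 + |x| + y) ^ (2 * k))) fun v => ?_
  have h1 := h v x y le_rfl le_rfl le_rfl
  have h2 : 0 < ex n x y u v := Real.exp_pos _
  have h3 := PP_one v
  have h0 : 0 ≤ 1 + |x| + y := by positivity
  split_ifs
  · exact (norm_GG_le n k x y |x| y u v le_rfl hy le_rfl).trans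
      (mul_le_mul_of_nonneg_left h1 (by positivity))
  · rw [norm_zero]
    exact mul_nonneg (by positivity) ((by positivity : 0 ≤ PP v ^ (2 * k) * ex n x y u v).trans h1)

open Classical in
theorem summ_GD (n k : ℕ) (hn : 1 ≤ n) (L : AddSubgroup (ℤ × ℤ)) (c d x y u : ℝ) (hy : 0 < y)
    (hu : 0 < u) (hc : |c| ≤ 1) (hd : |d| ≤ 1) :
    Summable (fun v : ℤ × ℤ => if v ∈ L then GD n k c d x y u v else 0) := by
  obtain ⟨W, hW, h⟩ := maj n hn u |x| y y hu hy hy (2 * k + 2)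
  refine Summable.of_norm_bounded (hW.mul_left (4 * k * (1 + |x| + y) ^ (2 * k) +
    (1 + |x| + y) ^ (2 * k) * (2 * π * u * ((1 + |x|) / y + ((1 + |x|) ^ 2 / (2 * y ^ 2) +
      1 / 2))))) fun v => ?_
  have h1 := h v x y le_rfl le_rfl le_rfl
  have h2 : 0 < ex n x y u v := Real.exp_pos _
  have h3 := PP_one v
  have h0 : 0 ≤ 1 + |x| + y := by positivity
  split_ifs
  · exact (norm_GD_le n k hn c d x y |x| y y u v le_rfl hy le_rfl le_rfl hu hc hd).trans
      (mul_le_mul_of_nonneg_left h1 (by positivity))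
  · rw [norm_zero]
    exact mul_nonneg (by positivity)
      ((by positivity : 0 ≤ PP v ^ (2 * k + 2) * ex n x y u v).trans h1)

open Classical in
theorem hasDerivAt_HH (n k : ℕ) (hn : 1 ≤ n) (L : AddSubgroup (ℤ × ℤ)) (c d x y u : ℝ)
    (hy : 0 < y) (hu : 0 < u) (hc : |c| ≤ 1) (hd : |d| ≤ 1) :
    HasDerivAt (fun t : ℝ => HH n k L (x + c * t) (y + d * t) u) (HD n k L c d x y u) 0 := by
  obtain ⟨ε, hε⟩ : ∃ ε : ℝ, ε = min 1 (y / 2) := ⟨_, rfl⟩
  have hε0 : 0 < ε := by rw [hε]; exact lt_min one_pos (by linarith)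
  have hε1 : ε ≤ 1 := by rw [hε]; exact min_le_left _ _
  have hε2 : ε ≤ y / 2 := by rw [hε]; exact min_le_right _ _
  obtain ⟨W, hW, h⟩ := maj n hn u (|x| + 1) (y / 2) (2 * y) hu (by linarith) (by linarith)
    (2 * k + 2)
  have hreg : ∀ t ∈ Ioo (-ε) ε, |x + c * t| ≤ |x| + 1 ∧ y / 2 ≤ y + d * t ∧ y + d * t ≤ 2 * y := by
    intro t ht
    have h1 : |t| < ε := abs_lt.2 ht
    have h2 : |c * t| ≤ ε := by
      rw [abs_mul]
      nlinarith [abs_nonneg t, abs_nonneg c]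
    have h3 : |d * t| ≤ ε := by
      rw [abs_mul]
      nlinarith [abs_nonneg t, abs_nonneg d]
    obtain ⟨h4, h5⟩ := abs_le.1 h3
    refine ⟨(abs_add_le _ _).trans (by linarith), by linarith, by linarith⟩
  have hmain := hasDerivAt_tsum_of_isPreconnected (t := Ioo (-ε) ε) (y₀ := 0) (y := 0)
    (g := fun (v : ℤ × ℤ) (t : ℝ) => if v ∈ L then GG n k (x + c * t) (y + d * t) u v else 0)
    (g' := fun (v : ℤ × ℤ) (t : ℝ) => if v ∈ L then GD n k c d (x + c * t) (y + d * t) u v else 0)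
    (hW.mul_left (4 * k * (1 + (|x| + 1) + 2 * y) ^ (2 * k) +
      (1 + (|x| + 1) + 2 * y) ^ (2 * k) * (2 * π * u * ((1 + (|x| + 1)) / (y / 2) +
      ((1 + (|x| + 1)) ^ 2 / (2 * (y / 2) ^ 2) + 1 / 2))))) isOpen_Ioo isPreconnected_Ioo
    (fun v t ht => by
      obtain ⟨h1, h2, h3⟩ := hreg t ht
      split_ifs
      · exact hasDerivAt_GG n k c d x y u t (by linarith) v
      · exact hasDerivAt_const _ _)
    (fun v t ht => by
      obtain ⟨h1, h2, h3⟩ := hreg t ht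
      have h4 := h v _ _ h1 h2 h3
      have h5 : 0 < ex n (x + c * t) (y + d * t) u v := Real.exp_pos _
      have h6 := PP_one v
      split_ifs
      · exact (norm_GD_le n k hn c d _ _ (|x| + 1) (y / 2) (2 * y) u v h1 (by linarith) h2 h3 hu
          hc hd).trans (mul_le_mul_of_nonneg_left h4 (by positivity))
      · rw [norm_zero]
        exact mul_nonneg (by positivity) ((by positivity :
          0 ≤ PP v ^ (2 * k + 2) * ex n (x + c * t) (y + d * t) u v).trans h4))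
    ⟨by linarith, hε0⟩
    (by
      simp only [mul_zero, add_zero]
      exact summ_GG n k hn L x y u hy hu) ⟨by linarith, hε0⟩
  simp only [mul_zero, add_zero] at hmain
  exact hmain

theorem GD_comb (n k : ℕ) (hn : 1 ≤ n) (x y u : ℝ) (hy : 0 < y) (v : ℤ × ℤ) :
    GD n k 1 0 x y u v - Complex.I * GD n k 0 1 x y u v =
      -(π * Complex.I * u / (n * y ^ 2)) * GG n (k + 1) x y u v := by
  have hyC : (y : ℂ) ≠ 0 := Complex.ofReal_ne_zero.2 hy.ne'
  have hnC : (n : ℂ) ≠ 0 := by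
    have : n ≠ 0 := by omega
    exact_mod_cast this
  have hI := Complex.I_sq
  have e1 : lb x y v ^ (2 * (k + 1)) = lb x y v ^ (2 * k) *
      ((v.1 : ℂ) + v.2 * (x - y * Complex.I)) ^ 2 := by
    rw [show 2 * (k + 1) = 2 * k + 2 by ring, pow_add]
    rfl
  unfold GD GG dqz
  rw [e1]
  generalize lb x y v ^ (2 * k) = P2
  generalize lb x y v ^ (2 * k - 1) = P1
  push_cast
  generalize (ex n x y u v : ℂ) = E
  field_simp
  linear_combination (2 * (k : ℂ) * P1 * v.2 * E * (n * y ^ 2) +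
    P2 * E * (π * u) * (-2 * ((v.1 : ℂ) + v.2 * x) * v.2 * y + Complex.I * v.2 ^ 2 * y ^ 2)) * hI

open Classical in
theorem HD_comb (n k : ℕ) (hn : 1 ≤ n) (L : AddSubgroup (ℤ × ℤ)) (x y u : ℝ) (hy : 0 < y)
    (hu : 0 < u) :
    HD n k L 1 0 x y u - Complex.I * HD n k L 0 1 x y u =
      -(π * Complex.I * u / (n * y ^ 2)) * HH n (k + 1) L x y u := by
  have h1 := summ_GD n k hn L 1 0 x y u hy hu (by simp) (by simp)
  have h2 := summ_GD n k hn L 0 1 x y u hy hu (by simp) (by simp)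
  unfold HD HH
  rw [← tsum_mul_left, ← tsum_mul_left, ← h1.tsum_sub (h2.mul_left _)]
  refine tsum_congr fun v => ?_
  split_ifs
  · exact GD_comb n k hn x y u hy v
  · simp

theorem HH_inv (hTHL : T_THL) (n : ℕ) (hn : 1 ≤ n) (L : AddSubgroup (ℤ × ℤ)) (hL : L ∈ Ls n)
    (k : ℕ) : ∀ x y u : ℝ, 0 < y → 0 < u →
    ((u⁻¹ : ℝ) : ℂ) ^ k * HH n k L x y u⁻¹ = u * (u : ℂ) ^ k * HH n k L x y u := by
  induction k with
  | zero =>
    intro x y u hy hu
    have h := (hTHL n L x y u hn hL hy hu).2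
    have e : ∀ w : ℝ, HH n 0 L x y w = ThL n L x y w := by
      intro w
      unfold HH ThL
      refine tsum_congr fun v => ?_
      split_ifs
      · unfold GG ex
        rw [mul_zero, pow_zero, one_mul, Complex.ofReal_exp]
        push_cast
        rfl
      · rfl
    rw [e, e, pow_zero, pow_zero, one_mul, mul_one]
    exact h
  | succ k ih =>
    intro x y u hy hu
    have hui : 0 < u⁻¹ := inv_pos.2 hu
    have key : ∀ c d : ℝ, |c| ≤ 1 → |d| ≤ 1 → ((u⁻¹ : ℝ) : ℂ) ^ k * HD n k L c d x y u⁻¹ =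
        u * (u : ℂ) ^ k * HD n k L c d x y u := by
      intro c d hc hd
      have h1 := (hasDerivAt_HH n k hn L c d x y u⁻¹ hy hui hc hd).const_mul (((u⁻¹ : ℝ) : ℂ) ^ k)
      have h2 := (hasDerivAt_HH n k hn L c d x y u hy hu hc hd).const_mul (u * (u : ℂ) ^ k)
      refine h1.unique (h2.congr_of_eventuallyEq ?_)
      have h3 : ∀ᶠ t : ℝ in 𝓝 0, 0 < y + d * t := by
        have : ContinuousAt (fun t : ℝ => y + d * t) 0 := by fun_prop
        exact this.eventually (lt_mem_nhds (by simpa using hy))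
      filter_upwards [h3] with t ht
      exact ih (x + c * t) (y + d * t) u ht hu
    have h1 := key 1 0 (by simp) (by simp)
    have h2 := key 0 1 (by simp) (by simp)
    have h3 := HD_comb n k hn L x y u hy hu
    have h4 := HD_comb n k hn L x y u⁻¹ hy hui
    have h5 : ((u⁻¹ : ℝ) : ℂ) ^ k * (HD n k L 1 0 x y u⁻¹ - Complex.I * HD n k L 0 1 x y u⁻¹) =
        u * (u : ℂ) ^ k * (HD n k L 1 0 x y u - Complex.I * HD n k L 0 1 x y u) := by
      linear_combination h1 - Complex.I * h2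
    rw [h3, h4] at h5
    have hne : -(π * Complex.I / (n * (y : ℂ) ^ 2)) ≠ 0 := by
      have hyC : (y : ℂ) ≠ 0 := Complex.ofReal_ne_zero.2 hy.ne'
      have hnC : (n : ℂ) ≠ 0 := by
        have : n ≠ 0 := by omega
        exact_mod_cast this
      have hpC : (π : ℂ) ≠ 0 := Complex.ofReal_ne_zero.2 Real.pi_ne_zero
      exact neg_ne_zero.2 (div_ne_zero (mul_ne_zero hpC Complex.I_ne_zero)
        (mul_ne_zero hnC (pow_ne_zero 2 hyC)))
    refine mul_left_cancel₀ hne ?_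
    linear_combination h5

theorem lb_ne_zero (x y : ℝ) (hy : 0 < y) (v : ℤ × ℤ) (hv : v ≠ 0) : lb x y v ≠ 0 := by
  intro h
  unfold lb at h
  have h1 := congrArg Complex.im h
  have h2 := congrArg Complex.re h
  simp at h1 h2
  rcases h1 with h1 | h1
  · rw [h1] at h2
    simp at h2
    exact hv (Prod.ext h2 h1)
  · exact hy.ne' h1

theorem an_eq (x y : ℝ) (v : ℤ × ℤ) : an x y v = (starRingEnd ℂ) (lb x y v) / lb x y v := by
  unfold Pool.Agent.H89.FC.an lb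
  simp

theorem conj_mul_lb (x y : ℝ) (hy : 0 < y) (v : ℤ × ℤ) :
    (starRingEnd ℂ) (lb x y v) * lb x y v = ((2 * y * qz x y v : ℝ) : ℂ) := by
  rw [mul_comm, Complex.mul_conj]
  congr 1
  have e : lb x y v = (((v.1 : ℝ) + v.2 * x : ℝ) : ℂ) + ((-(v.2 * y) : ℝ) : ℂ) * Complex.I := by
    unfold lb
    push_cast
    ring
  rw [e, Complex.normSq_add_mul_I]
  unfold qz
  field_simp

theorem thm_neg (k n : ℕ) (hk : 1 ≤ k) (hn : 1 ≤ n) (L : AddSubgroup (ℤ × ℤ)) (x y u : ℝ)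
    (hy : 0 < y) (v : ℤ × ℤ) : thm (-(k : ℤ)) n L x y u v =
      ((u / (2 * y * n) : ℝ) : ℂ) ^ k * (open Classical in if v ∈ L then GG n k x y u v else 0) := by
  classical
  have hn' : (n : ℝ) ≠ 0 := by
    have : n ≠ 0 := by omega
    exact_mod_cast this
  unfold thm
  by_cases hv : v ∈ L
  · by_cases h0 : v = 0
    · rw [if_neg (by tauto), if_pos hv]
      subst h0
      unfold GG lb
      have : 2 * k ≠ 0 := by omega
      simp [this]
    · rw [if_pos ⟨hv, h0⟩, if_pos hv, Int.natAbs_neg, Int.natAbs_natCast]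
      have hl := lb_ne_zero x y hy v h0
      have hl' : (starRingEnd ℂ) (lb x y v) ≠ 0 := by
        intro h
        exact hl ((map_eq_zero _).1 h)
      have hq : (u : ℂ) * ((qz x y v / n : ℝ) : ℂ) =
          ((u / (2 * y * n) : ℝ) : ℂ) * ((starRingEnd ℂ) (lb x y v) * lb x y v) := by
        rw [conj_mul_lb x y hy v, ← Complex.ofReal_mul, ← Complex.ofReal_mul]
        congr 1
        field_simp
      have he : Complex.exp (-(2 * π * u * ((qz x y v / n : ℝ) : ℂ))) = (ex n x y u v : ℂ) := by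
        unfold ex
        rw [Complex.ofReal_exp]
        push_cast
        rfl
      rw [he, hq, an_eq, zpow_neg, zpow_natCast]
      unfold GG
      rw [mul_pow, mul_pow, div_pow, pow_mul, ← pow_mul, mul_comm 2 k, pow_mul, sq]
      field_simp
  · rw [if_neg (by tauto), if_neg hv, mul_zero]

theorem thm_conj (m : ℤ) (n : ℕ) (L : AddSubgroup (ℤ × ℤ)) (x y u : ℝ) (v : ℤ × ℤ) :
    thm m n L x y u v = (starRingEnd ℂ) (thm (-m) n L x y u v) := by
  classical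
  unfold thm
  split_ifs
  · have e : Complex.exp (-(2 * π * u * ((qz x y v / n : ℝ) : ℂ))) =
        ((Real.exp (-(2 * π * u * (qz x y v / n))) : ℝ) : ℂ) := by
      rw [Complex.ofReal_exp]
      push_cast
      rfl
    rw [e, map_mul, map_mul, map_zpow₀, map_pow, map_mul, Complex.conj_ofReal, Complex.conj_ofReal,
      Complex.conj_ofReal, Int.natAbs_neg, an_eq, map_div₀, Complex.conj_conj, zpow_neg, ← inv_zpow,
      inv_div]
  · rw [map_zero]

theorem ThM_conj (m : ℤ) (n : ℕ) (L : AddSubgroup (ℤ × ℤ)) (x y u : ℝ) :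
    ThM m n L x y u = (starRingEnd ℂ) (ThM (-m) n L x y u) := by
  unfold ThM
  rw [Complex.conj_tsum]
  exact tsum_congr fun v => thm_conj m n L x y u v

theorem pf_THLm (hTHL : T_THL) : T_THLm := by
  classical
  intro m n L x y u hm hn hL hy hu
  have hneg : ∀ k : ℕ, 1 ≤ k → (∀ w : ℝ, 0 < w → Summable (fun v => thm (-(k : ℤ)) n L x y w v)) ∧
      ThM (-(k : ℤ)) n L x y ((u⁻¹ : ℝ) : ℂ) = u * ThM (-(k : ℤ)) n L x y u := by
    intro k hk
    have e : ∀ w : ℝ, ThM (-(k : ℤ)) n L x y w =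
        ((w / (2 * y * n) : ℝ) : ℂ) ^ k * HH n k L x y w := by
      intro w
      unfold ThM HH
      rw [← tsum_mul_left]
      exact tsum_congr fun v => thm_neg k n hk hn L x y w hy v
    refine ⟨fun w hw => ?_, ?_⟩
    · refine ((summ_GG n k hn L x y w hy hw).mul_left (((w / (2 * y * n) : ℝ) : ℂ) ^ k)).congr
        fun v => ?_
      exact (thm_neg k n hk hn L x y w hy v).symm
    · rw [e, e]
      have h := HH_inv hTHL n hn L hL k x y u hy hu
      have e1 : ∀ w : ℝ, ((w / (2 * y * n) : ℝ) : ℂ) ^ k =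
          (((2 * y * n : ℝ) : ℂ)⁻¹) ^ k * (w : ℂ) ^ k := by
        intro w
        rw [← mul_pow, Complex.ofReal_div, div_eq_mul_inv, mul_comm]
      rw [e1, e1]
      linear_combination (((2 * y * n : ℝ) : ℂ)⁻¹) ^ k * h
  rcases Int.natAbs_eq m with h | h
  · have hk : 1 ≤ m.natAbs := by
      have := Int.natAbs_pos.2 hm
      omega
    obtain ⟨h1, h2⟩ := hneg m.natAbs hk
    rw [← h] at h1 h2
    refine ⟨?_, ?_⟩
    · refine (h1 u hu).norm.congr fun v => ?_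
      rw [thm_conj m, Complex.norm_conj]
    · rw [ThM_conj m n L x y u⁻¹, ThM_conj m n L x y u, h2, map_mul, Complex.conj_ofReal]
  · have hk : 1 ≤ m.natAbs := by
      have := Int.natAbs_pos.2 hm
      omega
    obtain ⟨h1, h2⟩ := hneg m.natAbs hk
    rw [← h] at h1 h2
    exact ⟨(h1 u hu).norm, h2⟩

end Pool.Agent.H42.FC
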