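import Pool.Agent.H9.FC.TA

namespace Pool.Agent.H42.FC.NUM

open Pool.Agent.H9.FC
open BSet

variable {B : Type} [CompleteBooleanAlgebra B]

theorem bmem_bup (z x y : BSet B) : bmem z (bup x y) = beq z x ⊔ beq z y := by
  show (⨆ t : Bool, (⊤ : B) ⊓ beq z (cond t x y)) = _
  rw [iSup_bool_eq]
  simp

theorem bmem_bsucc (z x : BSet B) : bmem z (bsucc x) = bmem z x ⊔ beq z x := by
  show (⨆ o : Option x.type, (o.elim (⊤ : B) x.bval) ⊓ beq z (o.elim x x.func)) = _
  rw [iSup_option]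
  simp only [Option.elim_none, Option.elim_some, top_inf_eq]
  rw [sup_comm]
  rfl

theorem bmem_zero (z : BSet B) : bmem z (bnum 0) = ⊥ := by
  show (⨆ j : Empty, _) = _
  rw [iSup_of_empty]

theorem bmem_lt (n m : ℕ) (h : n < m) : bmem (bnum n : BSet B) (bnum m) = ⊤ := by
  induction m with
  | zero => omega
  | succ m ih =>
    show bmem _ (bsucc (bnum m)) = _
    rw [bmem_bsucc]
    rcases Nat.lt_succ_iff_lt_or_eq.1 h with h | h
    · rw [ih h, top_sup_eq]
    · rw [h, beq_refl, sup_top_eq]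

theorem bmem_ge (n : ℕ) : ∀ m, n ≤ m → bmem (bnum m : BSet B) (bnum n) = ⊥ := by
  induction n with
  | zero => intro m _; exact bmem_zero _
  | succ n ih =>
    intro m hm
    show bmem _ (bsucc (bnum n)) = _
    rw [bmem_bsucc, ih m (by omega), bot_sup_eq]
    have h1 := bmem_congr_right (bnum n : BSet B) (bnum m) (bnum n)
    rw [bmem_lt n m (by omega), inf_top_eq, ih n le_rfl] at h1
    exact le_bot_iff.1 h1

theorem beq_lt (n m : ℕ) (h : n < m) : beq (bnum m : BSet B) (bnum n) = ⊥ := by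
  have h1 := bmem_congr_right (bnum n : BSet B) (bnum m) (bnum n)
  rw [bmem_lt n m h, inf_top_eq, bmem_ge n n le_rfl] at h1
  exact le_bot_iff.1 h1

theorem beq_ne (n m : ℕ) (h : n ≠ m) : beq (bnum n : BSet B) (bnum m) = ⊥ := by
  rcases Nat.lt_or_gt_of_ne h with h | h
  · rw [beq_symm]; exact beq_lt n m h
  · exact beq_lt m n h

theorem tr {c : B} {x y z : BSet B} (h1 : c ≤ beq x y) (h2 : c ≤ beq y z) : c ≤ beq x z :=
  (le_inf h1 h2).trans (beq_trans _ _ _)

theorem sy {c : B} {x y : BSet B} (h1 : c ≤ beq x y) : c ≤ beq y x := by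
  rwa [beq_symm]

theorem cases_le {c a b d : B} (h : c ≤ a ⊔ b) (h1 : c ⊓ a ≤ d) (h2 : c ⊓ b ≤ d) : c ≤ d := by
  calc c ≤ c ⊓ (a ⊔ b) := le_inf le_rfl h
    _ = (c ⊓ a) ⊔ (c ⊓ b) := inf_sup_left _ _ _
    _ ≤ d := sup_le h1 h2

theorem mem_of_eq {c : B} {x y z : BSet B} (h : c ≤ beq y z) (h1 : bmem x y = ⊤) :
    c ≤ bmem x z :=
  (le_inf h (by rw [h1]; exact le_top)).trans (bmem_congr_right x y z)

theorem bup_left (a b : BSet B) : bmem a (bup a b) = ⊤ := by
  rw [bmem_bup, beq_refl, top_sup_eq]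

theorem bup_right (a b : BSet B) : bmem b (bup a b) = ⊤ := by
  rw [bmem_bup, beq_refl, sup_top_eq]

theorem el1 {c : B} {a b p q : BSet B} (h : c ≤ beq (bup a b) (bup p q)) :
    c ≤ beq a p ⊔ beq a q := by
  rw [← bmem_bup]; exact mem_of_eq h (bup_left a b)

theorem el2 {c : B} {a b p q : BSet B} (h : c ≤ beq (bup a b) (bup p q)) :
    c ≤ beq b p ⊔ beq b q := by
  rw [← bmem_bup]; exact mem_of_eq h (bup_right a b)

theorem intro_pair {c : B} {a b p q : BSet B} (h1 : c ≤ beq a p) (h2 : c ≤ beq b q) :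
    c ≤ beq (bup a b) (bup p q) := by
  rw [beq_eq]
  refine le_inf (le_iInf ?_) (le_iInf ?_)
  · rintro (t : Bool)
    rw [le_himp_iff]
    refine inf_le_left.trans ?_
    cases t with
    | true =>
      show c ≤ bmem a (bup p q)
      rw [bmem_bup]; exact h1.trans le_sup_left
    | false =>
      show c ≤ bmem b (bup p q)
      rw [bmem_bup]; exact h2.trans le_sup_right
  · rintro (t : Bool)
    rw [le_himp_iff]
    refine inf_le_left.trans ?_
    cases t with
    | true =>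
      show c ≤ bmem p (bup a b)
      rw [bmem_bup]; exact (sy h1).trans le_sup_left
    | false =>
      show c ≤ bmem q (bup a b)
      rw [bmem_bup]; exact (sy h2).trans le_sup_right

theorem kur_left {c : B} {x y x' y' : BSet B} (h : c ≤ beq (bop x y) (bop x' y')) :
    c ≤ beq x x' := by
  have h1 : c ≤ beq (bup x x) (bup x' x') ⊔ beq (bup x x) (bup x' y') := el1 h
  refine cases_le h1 ?_ ?_
  · have h2 := el1 (c := c ⊓ beq (bup x x) (bup x' x')) (inf_le_right)
    rwa [sup_idem] at h2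
  · have h2 := el1 (c := c ⊓ beq (bup x x) (bup x' y')) (sy inf_le_right)
    rw [sup_idem] at h2
    exact sy h2

theorem kur_right {c : B} {x y x' y' : BSet B} (h : c ≤ beq (bop x y) (bop x' y')) :
    c ≤ beq y y' := by
  have hx := kur_left h
  have h1 : c ≤ beq (bup x y) (bup x' x') ⊔ beq (bup x y) (bup x' y') := el2 h
  have h2 : c ≤ beq (bup x' y') (bup x x) ⊔ beq (bup x' y') (bup x y) := el2 (sy h)
  have main : ∀ d : B, d ≤ beq x x' → d ≤ beq (bup x y) (bup x' y') → d ≤ beq y y' := by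
    intro d hd1 hd2
    refine cases_le (el2 hd2) ?_ inf_le_right
    have h3 : d ⊓ beq y x' ≤ beq y' x ⊔ beq y' y := inf_le_left.trans (el2 (sy hd2))
    refine cases_le h3 ?_ (sy inf_le_right)
    have e1 : d ⊓ beq y x' ⊓ beq y' x ≤ beq y x' := inf_le_left.trans inf_le_right
    have e2 : d ⊓ beq y x' ⊓ beq y' x ≤ beq x x' := (inf_le_left.trans inf_le_left).trans hd1
    have e3 : d ⊓ beq y x' ⊓ beq y' x ≤ beq y' x := inf_le_right
    exact tr (tr e1 (sy e2)) (sy e3)
  refine cases_le h1 ?_ (main _ (inf_le_left.trans hx) inf_le_right)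
  refine cases_le (inf_le_left.trans h2) ?_ (main _ ((inf_le_left.trans inf_le_left).trans hx)
    (sy inf_le_right))
  have e0 : c ⊓ beq (bup x y) (bup x' x') ⊓ beq (bup x' y') (bup x x) ≤ beq x x' :=
    (inf_le_left.trans inf_le_left).trans hx
  have e1 := el2 (c := c ⊓ beq (bup x y) (bup x' x') ⊓ beq (bup x' y') (bup x x))
    (inf_le_left.trans inf_le_right)
  rw [sup_idem] at e1
  have e2 := el2 (c := c ⊓ beq (bup x y) (bup x' x') ⊓ beq (bup x' y') (bup x x)) inf_le_right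
  rw [sup_idem] at e2
  exact tr (tr e1 (sy e0)) (sy e2)

theorem beq_bop (x y x' y' : BSet B) : beq (bop x y) (bop x' y') = beq x x' ⊓ beq y y' := by
  refine le_antisymm (le_inf (kur_left le_rfl) (kur_right le_rfl)) ?_
  exact intro_pair (intro_pair inf_le_left inf_le_left) (intro_pair inf_le_left inf_le_right)

theorem beq_bnp (n m n' m' : ℕ) (h : (n, m) ≠ (n', m')) :
    beq (bnp n m : BSet B) (bnp n' m') = ⊥ := by
  unfold bnp
  rw [beq_bop]
  by_cases hn : n = n'
  · have hm : m ≠ m' := by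
      rintro rfl
      exact h (by rw [hn])
    rw [beq_ne m m' hm, inf_bot_eq]
  · rw [beq_ne n n' hn, bot_inf_eq]

theorem pf_NUM : T_NUM := by
  intro B _
  refine ⟨bmem_bup, bmem_bsucc, beq_ne, beq_bop, beq_bnp, ?_, ?_, fun _ _ => rfl, ?_⟩
  · intro z
    show (⨆ j : ℕ, (⊤ : B) ⊓ beq z (bnum j)) = _
    simp
  · intro r n m
    show (⨆ q : ℕ × ℕ, r q.1 q.2 ⊓ beq (bnp n m) (bnp q.1 q.2)) = _
    refine le_antisymm (iSup_le fun q => ?_) ?_
    · by_cases hq : (n, m) = (q.1, q.2)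
      · rw [Prod.mk.injEq] at hq
        rw [hq.1, hq.2]
        exact inf_le_left
      · rw [beq_bnp _ _ _ _ hq, inf_bot_eq]
        exact bot_le
    · exact le_iSup_of_le (n, m) (le_inf le_rfl (by rw [beq_refl]; exact le_top))
  · intro x z
    show (⨆ n : ℕ, (⊤ : B) ⊓ beq z (bnp n (x n))) = _
    simp

end Pool.Agent.H42.FC.NUM
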