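import Pool.Agent.H9.FC.TB

namespace Pool.Agent.H42.FC.PRE

open Pool.Agent.H9.FC
open Set

variable {Ω : Type} [LinearOrder Ω] [WellFoundedLT Ω]

/-- the trivial value -/
def triv (n : ℕ) : BVal := (n, 0, ∅)

theorem small_triv (p : Par) (m n : ℕ) : Pool.Agent.H9.FC.Small p m (triv n) := by
  unfold Pool.Agent.H9.FC.Small triv
  simp [Big]

theorem bound_triv (p : Par) (m : ℕ) : IsBound p m triv := fun n => ⟨le_rfl, small_triv p m n⟩

/-- the statement with a countable set -/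
def Cl (p : Par) (γ : Ω) (m : ℕ) (y : Pt Ω → ℕ → BVal) (S : Set (ℕ → BVal)) : Prop :=
  S.Countable ∧ (∀ h ∈ S, ∃ m', IsBound p m' h) ∧
    ∀ x : ℕ → ℕ, (∀ k, x k < p.b k) → ∀ U ∈ PP p γ, ∀ n₀, Fo p γ U x y n₀ → ∃ h ∈ S, Rel x h

theorem name_empty (p : Par) (Q : Set (Set (Pt Ω))) (ζ : Ω) :
    IsName p Q ζ 0 (fun _ _ => ∅) :=
  ⟨fun x i => ⟨Finset.empty_subset _, by simp⟩, fun _ _ _ => rfl,
    fun i U hU => ⟨U, hU, le_rfl, ∅, fun _ _ => rfl⟩⟩

theorem stem_empty (p : Par) : StemOK p (List.replicate 3 (∅ : Finset ℕ)) := by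
  intro i hi
  have : (List.replicate 3 (∅ : Finset ℕ)).getD i ∅ = ∅ := by
    rw [List.getD_eq_getElem?_getD, List.getElem?_replicate]
    split_ifs <;> rfl
  rw [this]
  simp

/-- below every condition there is one with a long stem at a prescribed set of coordinates -/
theorem below (hBAS : T_BAS) (hDCF : T_DCF) (p : Par) (γ : Ω) (Z : Set Ω)
    (hZγ : ∀ ζ ∈ Z, ζ < γ) (hZ : ∀ δ < γ, ∃ ζ ∈ Z, δ ≤ ζ) (hne : ∃ δ, δ < γ)
    (U : Set (Pt Ω)) (hU : U ∈ PP p γ) :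
    ∃ ζ ∈ Z, ∃ V ∈ PP p ζ, ∃ s l φ, StemOK p s ∧ l + 3 ≤ s.length ∧
      IsName p (PP p ζ) ζ l φ ∧ V ∩ atom ζ s φ ⊆ U := by
  have easy : ∀ ζ ∈ Z, U ∈ PP p ζ → ∃ ζ ∈ Z, ∃ V ∈ PP p ζ, ∃ s l φ, StemOK p s ∧
      l + 3 ≤ s.length ∧ IsName p (PP p ζ) ζ l φ ∧ V ∩ atom ζ s φ ⊆ U := by
    intro ζ hζ hUζ
    exact ⟨ζ, hζ, U, hUζ, List.replicate 3 ∅, 0, fun _ _ => ∅, stem_empty p, by simp,
      name_empty p _ ζ, inter_subset_left⟩
  rcases (mem_PP p γ U).1 hU with h | ⟨δ, hδ, U0, hU0, t, l, ψ, ht, hl, hψ, hUe⟩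
  · obtain ⟨δ, hδ⟩ := hne
    obtain ⟨ζ, hζ, -⟩ := hZ δ hδ
    exact easy ζ hζ ((mem_PP p ζ U).2 (Or.inl h))
  · obtain ⟨ζ, hζ, hle⟩ := hZ δ hδ
    rcases lt_or_eq_of_le hle with hlt | rfl
    · exact easy ζ hζ ((mem_PP p ζ U).2 (Or.inr ⟨δ, hlt, U0, hU0, t, l, ψ, ht, hl, hψ, hUe⟩))
    · obtain ⟨V, hV, hVU, hc⟩ := hDCF p Ω δ (Finset ℕ) ψ (max t.length (l + 3)) U0 hψ.2.2 hU0
      obtain ⟨v0, hv0⟩ := (hBAS p Ω).2.2.2.1 δ V hV
      set N := max t.length (l + 3) with hN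
      let g : ℕ → Finset ℕ := fun i => if i < t.length then t.getD i ∅ else ψ v0 i
      have hgd : ∀ i < N, ((List.range N).map g).getD i ∅ = g i := by
        intro i hi
        rw [List.getD_eq_getElem?_getD, List.getElem?_map, List.getElem?_range hi]
        rfl
      refine ⟨δ, hζ, V, hV, (List.range N).map g, l, ψ, ?_, ?_, hψ, ?_⟩
      · intro i hi
        rw [List.length_map, List.length_range] at hi
        rw [hgd i hi]
        by_cases h1 : i < t.length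
        · have : g i = t.getD i ∅ := if_pos h1
          rw [this]
          exact ht i h1
        · have : g i = ψ v0 i := if_neg h1
          rw [this]
          obtain ⟨h2, h3⟩ := hψ.1 v0 i
          refine ⟨h2, ?_⟩
          have := p.w_le l i (by omega)
          omega
      · rw [List.length_map, List.length_range]
        exact le_max_right _ _
      · rintro x ⟨hxV, hx1, hx2⟩
        rw [List.length_map, List.length_range] at hx1 hx2
        rw [hUe]
        refine ⟨hVU hxV, ?_, ?_⟩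
        · intro i hi
          have hiN : i < N := lt_of_lt_of_le hi (le_max_left _ _)
          rw [hx1 i hiN, hgd i hiN]
          exact if_pos hi
        · intro i hi
          by_cases hiN : i < N
          · rw [hx1 i hiN, hgd i hiN]
            have : g i = ψ v0 i := if_neg (by omega)
            rw [this]
            obtain ⟨c, hcc⟩ := hc i hiN
            rw [hcc x hxV, hcc v0 hv0]
          · exact hx2 i (by omega)

theorem pre_aux (hBAS : T_BAS) (hAMA : T_AMA) (hDCF : T_DCF) (hSTP : T_STP) (hBND : T_BND)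
    (p : Par) (γ : Ω) : ∀ m y, IsBName p γ m y → ∃ S, Cl p γ m y S := by
  induction γ using WellFoundedLT.induction with
  | _ γ ih =>
  intro m y hy
  by_cases hmin : ∃ δ, δ < γ
  swap
  · -- minimal
    have hPP : ∀ U ∈ PP p γ, U = univ := by
      intro U hU
      rcases (mem_PP p γ U).1 hU with h | ⟨δ, hδ, -⟩
      · exact h
      · exact absurd ⟨δ, hδ⟩ hmin
    have huniv : (univ : Set (Pt Ω)) ∈ PP p γ := (mem_PP p γ _).2 (Or.inl rfl)
    have hconst : ∀ n, ∃ c, ∀ t : Pt Ω, y t n = c := by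
      intro n
      obtain ⟨V, hV, -, c, hc⟩ := hy.2.2 n univ huniv
      rw [hPP V hV] at hc
      exact ⟨c, fun t => hc t (mem_univ _)⟩
    choose h hh using hconst
    let t0 : Pt Ω := fun _ _ => ∅
    refine ⟨{h}, countable_singleton _, ?_, ?_⟩
    · rintro h' rfl
      refine ⟨m, fun n => ?_⟩
      rw [← hh n t0]
      exact hy.1 t0 n
    · intro x hx U hU n₀ hF
      refine ⟨h, rfl, n₀, fun n hn => ?_⟩
      exact hF n hn univ huniv (by rw [hPP U hU]) (h n) (fun t _ => hh n t)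
  by_cases hA : ∃ Z : Set Ω, Z.Countable ∧ (∀ ζ ∈ Z, ζ < γ) ∧ ∀ δ < γ, ∃ ζ ∈ Z, δ ≤ ζ
  · obtain ⟨Z, hZc, hZγ, hZ⟩ := hA
    have hstep : ∀ (ζ : Z) (s : List (Finset ℕ)) (l : ℕ), ∃ S : Set (ℕ → BVal), S.Countable ∧
        (∀ h ∈ S, ∃ m', IsBound p m' h) ∧ (StemOK p s → l + 3 ≤ s.length →
        ∀ (φ : Pt Ω → ℕ → Finset ℕ) (V : Set (Pt Ω)) (x : ℕ → ℕ) (n₀ : ℕ),
          IsName p (PP p ζ.1) ζ.1 l φ → V ∈ PP p ζ.1 → (∀ k, x k < p.b k) →
          Fo p γ (V ∩ atom ζ.1 s φ) x y n₀ → ∃ h ∈ S, Rel x h) := by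
      intro ζ s l
      by_cases hs : StemOK p s ∧ l + 3 ≤ s.length
      · obtain ⟨y', hy', hF⟩ := hSTP p Ω γ ζ.1 m y s l (hZγ _ ζ.2) hy hs.1 hs.2
        obtain ⟨S, hS1, hS2, hS3⟩ := ih ζ.1 (hZγ _ ζ.2) (m + 1) y' hy'
        refine ⟨S, hS1, hS2, ?_⟩
        intro _ _ φ V x n₀ hφ hV hx hFo
        exact hS3 x hx V hV n₀ (hF φ V x n₀ hφ hV hx hFo)
      · refine ⟨∅, countable_empty, by simp, ?_⟩
        intro h1 h2
        exact absurd ⟨h1, h2⟩ hs
    choose S hS1 hS2 hS3 using hstep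
    haveI : Countable Z := hZc.to_subtype
    refine ⟨⋃ q : Z × List (Finset ℕ) × ℕ, S q.1 q.2.1 q.2.2, ?_, ?_, ?_⟩
    · exact countable_iUnion (fun q => hS1 _ _ _)
    · intro h hh
      rw [mem_iUnion] at hh
      obtain ⟨q, hq⟩ := hh
      exact hS2 _ _ _ h hq
    · intro x hx U hU n₀ hF
      obtain ⟨ζ, hζ, V, hV, s, l, φ, hs, hl, hφ, hsub⟩ :=
        below hBAS hDCF p γ Z hZγ hZ hmin U hU
      have hF' : Fo p γ (V ∩ atom ζ s φ) x y n₀ := by
        intro n hn W hW hWs c hc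
        exact hF n hn W hW (hWs.trans hsub) c hc
      obtain ⟨h, hh, hr⟩ := hS3 ⟨ζ, hζ⟩ s l hs hl φ V x n₀ hφ hV hx hF'
      exact ⟨h, mem_iUnion.2 ⟨(⟨ζ, hζ⟩, s, l), hh⟩, hr⟩
  · -- uncountable cofinality
    have hcof : ∀ A : Set Ω, A.Countable → (∀ δ ∈ A, δ < γ) → ∃ β < γ, ∀ δ ∈ A, δ < β := by
      intro A hAc hAγ
      by_contra hcon
      apply hA
      refine ⟨A, hAc, hAγ, fun δ hδ => ?_⟩
      by_contra h
      apply hcon
      refine ⟨δ, hδ, fun ζ hζ => ?_⟩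
      by_contra h'
      exact h ⟨ζ, hζ, not_lt.1 h'⟩
    obtain ⟨β, hβ, f, hfd, hfD, hf1, hf2⟩ := hBND p Ω γ hcof BVal (0, 0, ∅)
      (fun n c V => ∀ x ∈ V, y x n = c)
      (fun n c V V' _ hVV' h x hx => h x (hVV' hx))
      (fun n V hV => by
        obtain ⟨V', hV', hs, c, hc⟩ := hy.2.2 n V hV
        exact ⟨V', hV', hs, c, hc⟩)
    classical
    let y' : Pt Ω → ℕ → BVal := fun x n =>
      if n ≤ (f x n).1 ∧ Small p m (f x n) then f x n else triv n
    have hy' : IsBName p β m y' := by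
      refine ⟨?_, ?_, ?_⟩
      · intro x n
        by_cases h : n ≤ (f x n).1 ∧ Small p m (f x n)
        · have : y' x n = f x n := if_pos h
          rw [this]; exact h
        · have : y' x n = triv n := if_neg h
          rw [this]; exact ⟨le_rfl, small_triv p m n⟩
      · intro x x' hxx
        funext n
        have := hfd x x' hxx
        show (if n ≤ (f x n).1 ∧ Small p m (f x n) then f x n else triv n) =
          (if n ≤ (f x' n).1 ∧ Small p m (f x' n) then f x' n else triv n)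
        rw [this]
      · intro n U hU
        obtain ⟨V, hV, hVU, c, hc⟩ := hfD n U hU
        refine ⟨V, hV, hVU, if n ≤ c.1 ∧ Small p m c then c else triv n, fun x hx => ?_⟩
        have h1 : f x n = c := hc x hx
        show (if n ≤ (f x n).1 ∧ Small p m (f x n) then f x n else triv n) = _
        rw [h1]
    obtain ⟨S, hS1, hS2, hS3⟩ := ih β hβ m y' hy'
    refine ⟨S, hS1, hS2, ?_⟩
    intro x hx U hU n₀ hF
    refine hS3 x hx (sat β U) ((hBAS p Ω).2.2.1 β γ U hU) n₀ ?_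
    intro n hn V hV hVs c hc
    have hVU : V ∩ U ∈ PP p γ := (hAMA p Ω).1 β γ V U hβ.le hV hU hVs
    have hD : Dec (PP p γ) (fun x => f x n) :=
      (hAMA p Ω).2 β γ BVal (fun x => f x n) hβ.le
        (fun x x' h => by show f x n = f x' n; rw [hfd x x' h]) (hfD n)
    obtain ⟨R, hR, hRs, c1, hc1⟩ := hD (V ∩ U) hVU
    obtain ⟨R', hR', hRR, hDc⟩ := hf2 n c1 R hR hc1
    obtain ⟨t, ht⟩ := (hBAS p Ω).2.2.2.1 γ R' hR'
    have hleg : n ≤ c1.1 ∧ Small p m c1 := by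
      rw [← hDc t ht]; exact hy.1 t n
    have hcc : c = c1 := by
      have h1 : y' t n = c := hc t (hRs (hRR ht)).1
      have h2 : f t n = c1 := hc1 t (hRR ht)
      have h3 : y' t n = c1 := by
        show (if n ≤ (f t n).1 ∧ Small p m (f t n) then f t n else triv n) = c1
        rw [h2, if_pos hleg]
      rw [← h1, h3]
    rw [hcc]
    exact hF n hn R' hR' (fun z hz => (hRs (hRR hz)).2) c1 hDc

theorem pf_PRE (hBAS : T_BAS) (hAMA : T_AMA) (hDCF : T_DCF) (hSTP : T_STP) (hBND : T_BND) :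
    T_PRE := by
  intro p Ω _ _ γ m y hy
  obtain ⟨S, hS1, hS2, hS3⟩ := pre_aux hBAS hAMA hDCF hSTP hBND p γ m y hy
  have hc : (insert triv S).Countable := hS1.insert _
  obtain ⟨H, hH⟩ := hc.exists_eq_range (insert_nonempty _ _)
  refine ⟨H, fun k => ?_, fun x hx U hU n₀ hF => ?_⟩
  · have : H k ∈ insert triv S := by rw [hH]; exact mem_range_self k
    rcases this with h | h
    · rw [h]; exact ⟨0, bound_triv p 0⟩
    · exact hS2 _ h
  · obtain ⟨h, hh, hr⟩ := hS3 x hx U hU n₀ hF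
    have : h ∈ insert triv S := mem_insert_of_mem _ hh
    rw [hH] at this
    obtain ⟨k, rfl⟩ := this
    exact ⟨k, hr⟩

end Pool.Agent.H42.FC.PRE
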