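import Pool.Agent.H9.FC.TA

namespace Pool.Agent.H42.FC.QN

open Pool.Agent.H9.FC
open BSet

variable {B : Type} [CompleteBooleanAlgebra B] (M : Gen B)

theorem sup_mem_iff (a c : B) : a ⊔ c ∈ M.G ↔ a ∈ M.G ∨ c ∈ M.G := by
  constructor
  · intro h
    rcases M.ultra a with h1 | h1
    · exact Or.inl h1
    · right
      refine M.up (M.inf_mem h h1) ?_
      rw [inf_sup_right, inf_compl_self, bot_sup_eq]
      exact inf_le_left
  · rintro (h | h)
    · exact M.up h le_sup_left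
    · exact M.up h le_sup_right

theorem E_bup (hN : T_NUM) (s : M.N) (x y : M.X) (h : bup x.1 y.1 ∈ M.X) :
    M.E s (M.cl ⟨bup x.1 y.1, h⟩) ↔ s = M.cl x ∨ s = M.cl y := by
  obtain ⟨s, rfl⟩ := M.cl_surj s
  rw [M.E_cl, M.cl_eq, M.cl_eq, ← sup_mem_iff]
  have := (hN B).1 s.1 x.1 y.1
  rw [← this]

theorem E_bsucc (hN : T_NUM) (s : M.N) (x : M.X) (h : bsucc x.1 ∈ M.X) :
    M.E s (M.cl ⟨bsucc x.1, h⟩) ↔ M.E s (M.cl x) ∨ s = M.cl x := by
  obtain ⟨s, rfl⟩ := M.cl_surj s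
  rw [M.E_cl, M.E_cl, M.cl_eq, ← sup_mem_iff]
  have := (hN B).2.1 s.1 x.1
  rw [← this]

theorem E_zero (s : M.N) (h : bnum 0 ∈ M.X) : ¬ M.E s (M.cl ⟨bnum 0, h⟩) := by
  obtain ⟨s, rfl⟩ := M.cl_surj s
  rw [M.E_cl]
  have : bmem s.1 (bnum 0) = ⊥ := by
    show (⨆ j : Empty, _) = _
    rw [iSup_of_empty]
  rw [this]
  exact M.bot_not_mem

theorem pf_QN (hN : T_NUM) (h1 : T_AX1) : T_QN := by
  intro B _ M hn hp
  have ext := (h1 B M).1
  constructor
  · intro n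
    induction n with
    | zero =>
      intro t
      constructor
      · intro h
        exact ext _ _ (fun z => ⟨fun hz => absurd hz (h z), fun hz => absurd hz (E_zero M z _)⟩)
      · rintro rfl z
        exact E_zero M z _
    | succ n ih =>
      intro t
      have hs : ∀ s, M.E s (M.cl ⟨bnum (n + 1), hn (n + 1)⟩) ↔
          M.E s (M.cl ⟨bnum n, hn n⟩) ∨ s = M.cl ⟨bnum n, hn n⟩ :=
        fun s => E_bsucc M hN s ⟨bnum n, hn n⟩ (hn (n + 1))
      constructor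
      · rintro ⟨y, hy, hyt⟩
        rw [ih y] at hy
        subst hy
        exact ext _ _ (fun z => (hyt z).trans (hs z).symm)
      · rintro rfl
        exact ⟨_, (ih _).2 rfl, hs⟩
  · intro t x y
    have hxx : ∀ s, (∀ r, M.E r s ↔ r = M.cl x) ↔ s = M.cl ⟨bup x.1 x.1, hp _ _ x.2 x.2⟩ := by
      intro s
      constructor
      · intro h
        refine ext _ _ (fun z => ?_)
        rw [h z, E_bup M hN z x x, or_self]
      · rintro rfl r
        rw [E_bup M hN r x x, or_self]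
    have hxy : ∀ s, (∀ r, M.E r s ↔ r = M.cl x ∨ r = M.cl y) ↔
        s = M.cl ⟨bup x.1 y.1, hp _ _ x.2 y.2⟩ := by
      intro s
      constructor
      · intro h
        refine ext _ _ (fun z => ?_)
        rw [h z, E_bup M hN z x y]
      · rintro rfl r
        rw [E_bup M hN r x y]
    have hb : ∀ s, M.E s (M.cl ⟨bop x.1 y.1, hp _ _ (hp _ _ x.2 x.2) (hp _ _ x.2 y.2)⟩) ↔
        s = M.cl ⟨bup x.1 x.1, hp _ _ x.2 x.2⟩ ∨ s = M.cl ⟨bup x.1 y.1, hp _ _ x.2 y.2⟩ :=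
      fun s => E_bup M hN s ⟨bup x.1 x.1, hp _ _ x.2 x.2⟩ ⟨bup x.1 y.1, hp _ _ x.2 y.2⟩ _
    unfold IsPair
    constructor
    · intro h
      refine ext _ _ (fun s => ?_)
      rw [h s, hxx, hxy, hb]
    · rintro rfl s
      rw [hb, hxx, hxy]

end Pool.Agent.H42.FC.QN
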